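import Mathlib

set_option autoImplicit false

/-!
# Fibres of functions on a finite set: submodularity

`fib Ω f ω` is the number of the elements of `Ω` with the same value of `f` as `ω`, and
`L Ω f = ∑ log (fib Ω f ω)`, which is `|Ω| (log |Ω| - H(f))` with the entropy `H(f)` of `f` for the
uniform distribution on `Ω`.
-/

open Finset

namespace Pool.Agent.N269.PF

variable {α : Type*}

open Classical in
/-- The number of the elements of `Ω` with the same value as `ω`. -/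
noncomputable def fib {β : Type*} (Ω : Finset α) (f : α → β) (ω : α) : ℝ :=
  ((Ω.filter fun ω' => f ω' = f ω).card : ℝ)

/-- The sum of the logarithms of the sizes of the fibres. -/
noncomputable def L {β : Type*} (Ω : Finset α) (f : α → β) : ℝ :=
  ∑ ω ∈ Ω, Real.log (fib Ω f ω)

theorem fib_pos {β : Type*} {Ω : Finset α} (f : α → β) {ω : α} (h : ω ∈ Ω) : 0 < fib Ω f ω := by
  classical
  unfold fib
  have : 0 < (Ω.filter fun ω' => f ω' = f ω).card := card_pos.2 ⟨ω, by simp [h]⟩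
  exact_mod_cast this

theorem fib_congr {β : Type*} {Ω : Finset α} {f : α → β} {ω ω' : α} (h : f ω = f ω') :
    fib Ω f ω = fib Ω f ω' := by
  unfold fib
  rw [h]

theorem fib_eq {β : Type*} [DecidableEq β] (Ω : Finset α) (f : α → β) (ω : α) :
    fib Ω f ω = ((Ω.filter fun ω' => f ω' = f ω).card : ℝ) := by
  unfold fib
  congr!

/-- The sum of the inverse sizes of the fibres is the number of the fibres. -/
theorem sum_inv {β : Type*} [DecidableEq β] (Ω : Finset α) (f : α → β) (P : α → Prop)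
    [DecidablePred P]
    (hP : ∀ ω ω', f ω = f ω' → P ω → P ω') :
    ∑ ω ∈ Ω.filter P, (fib Ω f ω)⁻¹ = (((Ω.filter P).image f).card : ℝ) := by
  rw [← sum_fiberwise_of_maps_to (s := Ω.filter P) (t := (Ω.filter P).image f) (g := f)
    (fun ω hω => mem_image_of_mem f hω), card_eq_sum_ones, Nat.cast_sum]
  refine sum_congr rfl fun b hb => ?_
  obtain ⟨ω₀, hω₀, rfl⟩ := mem_image.1 hb
  rw [mem_filter] at hω₀
  have h1 : (Ω.filter P).filter (fun ω => f ω = f ω₀) = Ω.filter fun ω => f ω = f ω₀ := by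
    ext ω
    simp only [mem_filter]
    constructor
    · rintro ⟨⟨h1, _⟩, h3⟩
      exact ⟨h1, h3⟩
    · rintro ⟨h1, h3⟩
      exact ⟨⟨h1, hP ω₀ ω h3.symm hω₀.2⟩, h3⟩
  rw [h1]
  have h2 : ∀ ω ∈ Ω.filter (fun ω => f ω = f ω₀), (fib Ω f ω)⁻¹ = (fib Ω f ω₀)⁻¹ := by
    intro ω hω
    rw [fib_congr (mem_filter.1 hω).2]
  rw [sum_congr rfl h2, sum_const, nsmul_eq_mul]
  rw [← fib_eq Ω f ω₀, mul_inv_cancel₀ (fib_pos f hω₀.1).ne']
  simp

/-- The image of a function with small `L` is large. -/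
theorem log_card_le {β : Type*} [DecidableEq β] (Ω : Finset α) (hΩ : Ω.Nonempty) (f : α → β) :
    (Ω.card : ℝ) * Real.log Ω.card ≤ L Ω f + Ω.card * Real.log (Ω.image f).card := by
  classical
  have hn : (0:ℝ) < Ω.card := by exact_mod_cast card_pos.2 hΩ
  have hm : (0:ℝ) < (Ω.image f).card := by exact_mod_cast card_pos.2 (hΩ.image f)
  have h1 : ∀ ω ∈ Ω, Real.log Ω.card - Real.log (Ω.image f).card - Real.log (fib Ω f ω) ≤
      (Ω.card / (Ω.image f).card) * (fib Ω f ω)⁻¹ - 1 := by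
    intro ω hω
    have hf := fib_pos f hω
    have h2 := Real.log_le_sub_one_of_pos (x := (Ω.card / (Ω.image f).card) * (fib Ω f ω)⁻¹)
      (by positivity)
    rwa [Real.log_mul (by positivity) (by positivity), Real.log_div hn.ne' hm.ne',
      Real.log_inv, ← sub_eq_add_neg] at h2
  have h2 := sum_le_sum h1
  have h3 := sum_inv Ω f (fun _ => True) (fun _ _ _ _ => trivial)
  rw [filter_true_of_mem (fun _ _ => trivial)] at h3
  rw [sum_sub_distrib, sum_sub_distrib, sum_sub_distrib, ← mul_sum, h3] at h2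
  simp only [sum_const, nsmul_eq_mul, mul_one] at h2
  rw [div_mul_cancel₀ _ hm.ne'] at h2
  unfold L
  linarith

/-- Submodularity. -/
theorem submod {β₁ β₂ γ : Type*} (Ω : Finset α) (f₁ : α → β₁) (f₂ : α → β₂) (g : α → γ)
    (h₁ : ∀ ω ω', f₁ ω = f₁ ω' → g ω = g ω') (h₂ : ∀ ω ω', f₂ ω = f₂ ω' → g ω = g ω') :
    L Ω f₁ + L Ω f₂ ≤ L Ω (fun ω => (f₁ ω, f₂ ω)) + L Ω g := by
  classical
  set f : α → β₁ × β₂ := fun ω => (f₁ ω, f₂ ω) with hf
  have key : ∑ ω ∈ Ω, fib Ω f₁ ω * fib Ω f₂ ω * (fib Ω f ω)⁻¹ * (fib Ω g ω)⁻¹ ≤ Ω.card := by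
    have e1 : ∀ ω ∈ Ω, fib Ω f₁ ω * fib Ω f₂ ω * (fib Ω f ω)⁻¹ * (fib Ω g ω)⁻¹ =
        ∑ ω' ∈ Ω, ∑ ω'' ∈ Ω, if f₁ ω' = f₁ ω ∧ f₂ ω'' = f₂ ω then
          (fib Ω f ω)⁻¹ * (fib Ω g ω')⁻¹ else 0 := by
      intro ω _
      have e2 : fib Ω f₁ ω = ∑ ω' ∈ Ω, if f₁ ω' = f₁ ω then (1:ℝ) else 0 := by
        unfold fib
        rw [sum_ite, sum_const_zero, add_zero, sum_const, nsmul_eq_mul, mul_one]
      have e3 : fib Ω f₂ ω = ∑ ω' ∈ Ω, if f₂ ω' = f₂ ω then (1:ℝ) else 0 := by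
        unfold fib
        rw [sum_ite, sum_const_zero, add_zero, sum_const, nsmul_eq_mul, mul_one]
      rw [e2, e3, sum_mul_sum, mul_assoc, sum_mul]
      refine sum_congr rfl fun ω' _ => ?_
      rw [sum_mul]
      refine sum_congr rfl fun ω'' _ => ?_
      by_cases c1 : f₁ ω' = f₁ ω
      · have : fib Ω g ω' = fib Ω g ω := fib_congr (h₁ _ _ c1)
        by_cases c2 : f₂ ω'' = f₂ ω <;> simp [c1, c2, this]
      · simp [c1]
    rw [sum_congr rfl e1, sum_comm]
    have e4 : ∀ ω' ∈ Ω, ∑ ω ∈ Ω, ∑ ω'' ∈ Ω, (if f₁ ω' = f₁ ω ∧ f₂ ω'' = f₂ ω then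
        (fib Ω f ω)⁻¹ * (fib Ω g ω')⁻¹ else 0) ≤ 1 := by
      intro ω' hω'
      rw [sum_comm]
      have e5 : ∀ ω'' ∈ Ω, ∑ ω ∈ Ω, (if f₁ ω' = f₁ ω ∧ f₂ ω'' = f₂ ω then
          (fib Ω f ω)⁻¹ * (fib Ω g ω')⁻¹ else 0) ≤
          if g ω'' = g ω' then (fib Ω g ω')⁻¹ else 0 := by
        intro ω'' hω''
        have hg0 : 0 ≤ (fib Ω g ω')⁻¹ := inv_nonneg.2 (fib_pos g hω').le
        rw [← sum_filter, ← sum_mul]
        have e6 := sum_inv Ω f (fun ω => f₁ ω' = f₁ ω ∧ f₂ ω'' = f₂ ω) (by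
          intro ω₁ ω₂ h12 hP
          rw [hf, Prod.ext_iff] at h12
          exact ⟨hP.1.trans h12.1, hP.2.trans h12.2⟩)
        rw [e6]
        by_cases hem : (Ω.filter fun ω => f₁ ω' = f₁ ω ∧ f₂ ω'' = f₂ ω) = ∅
        · rw [hem, image_empty, card_empty]
          split_ifs <;> simp [hg0]
        · obtain ⟨ω, hω⟩ := nonempty_iff_ne_empty.2 hem
          rw [mem_filter] at hω
          have hgg : g ω'' = g ω' := (h₂ _ _ hω.2.2).trans (h₁ _ _ hω.2.1).symm
          rw [if_pos hgg]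
          have hcard : ((Ω.filter fun ω => f₁ ω' = f₁ ω ∧ f₂ ω'' = f₂ ω).image f).card ≤ 1 := by
            rw [card_le_one]
            intro a ha b hb
            obtain ⟨x, hx, rfl⟩ := mem_image.1 ha
            obtain ⟨y, hy, rfl⟩ := mem_image.1 hb
            rw [mem_filter] at hx hy
            rw [hf, Prod.ext_iff]
            exact ⟨hx.2.1.symm.trans hy.2.1, hx.2.2.symm.trans hy.2.2⟩
          have : (((Ω.filter fun ω => f₁ ω' = f₁ ω ∧ f₂ ω'' = f₂ ω).image f).card : ℝ) ≤ 1 := by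
            exact_mod_cast hcard
          exact mul_le_of_le_one_left hg0 this
      refine (sum_le_sum e5).trans ?_
      rw [← sum_filter, sum_const, nsmul_eq_mul]
      rw [← fib_eq Ω g ω', mul_inv_cancel₀ (fib_pos g hω').ne']
    refine (sum_le_sum e4).trans ?_
    simp
  have h1 : ∀ ω ∈ Ω, Real.log (fib Ω f₁ ω) + Real.log (fib Ω f₂ ω) - Real.log (fib Ω f ω) -
      Real.log (fib Ω g ω) ≤
      fib Ω f₁ ω * fib Ω f₂ ω * (fib Ω f ω)⁻¹ * (fib Ω g ω)⁻¹ - 1 := by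
    intro ω hω
    have p1 := fib_pos f₁ hω
    have p2 := fib_pos f₂ hω
    have p3 := fib_pos f hω
    have p4 := fib_pos g hω
    have h2 := Real.log_le_sub_one_of_pos
      (x := fib Ω f₁ ω * fib Ω f₂ ω * (fib Ω f ω)⁻¹ * (fib Ω g ω)⁻¹) (by positivity)
    rwa [Real.log_mul (by positivity) (by positivity), Real.log_mul (by positivity) (by positivity),
      Real.log_mul p1.ne' p2.ne', Real.log_inv, Real.log_inv, ← sub_eq_add_neg,
      ← sub_eq_add_neg] at h2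
  have h2 := sum_le_sum h1
  rw [sum_sub_distrib, sum_sub_distrib, sum_sub_distrib, sum_add_distrib] at h2
  simp only [sum_const, nsmul_eq_mul, mul_one] at h2
  unfold L
  linarith

end Pool.Agent.N269.PF
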