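import Pool.Agent.N269.PF.Ent

set_option autoImplicit false

/-!
# Projections of the sets given by labelled trees
-/

open Finset

namespace Pool.Agent.N269.PF

variable {α β : Type*}

/-- `r i + m i (r (i+1) + m (i+1) (...))`, `n` terms. -/
def tail (m : ℕ → ℤ) (r : ℕ → ℤ) : ℕ → ℕ → ℤ
  | 0, _ => 0
  | n + 1, i => r i + m i * tail m r n (i + 1)

theorem tail_eq (m r : ℕ → ℤ) (n : ℕ) : ∀ i, tail m r n i =
    ∑ j ∈ range n, (∏ l ∈ range j, m (i + l)) * r (i + j) := by
  induction n with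
  | zero => intro i; simp [tail]
  | succ n ih =>
    intro i
    rw [tail, ih, sum_range_succ', mul_sum, add_comm]
    congr 1
    · refine sum_congr rfl fun j _ => ?_
      rw [prod_range_succ', ← mul_assoc, add_zero, mul_comm (m i)]
      congr 1
      · congr 1
        refine prod_congr rfl fun l _ => ?_
        congr 1
        omega
      · congr 1
        omega
    · simp

/-- One level of the tree, for one slope. -/
theorem level (Ω : Finset α) (U U' : α → β) (hU : ∀ ω ω', U' ω = U' ω' → U ω = U ω')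
    (m : ℤ) (hm : m ≠ 0) (r Z : α → ℤ) (hr : ∀ ω ω', U' ω = U' ω' → r ω = r ω') :
    L Ω (fun ω => (r ω + m * Z ω, U ω)) + L Ω U' ≤
      L Ω (fun ω => (Z ω, U' ω)) + L Ω (fun ω => (r ω % m, U ω)) := by
  classical
  have h := submod Ω (fun ω => (r ω + m * Z ω, U ω)) U' (fun ω => (r ω % m, U ω))
    (by
      intro ω ω' hω
      rw [Prod.mk.injEq] at hω ⊢
      refine ⟨?_, hω.2⟩
      have h1 : (r ω + m * Z ω) % m = (r ω' + m * Z ω') % m := by rw [hω.1]
      rwa [Int.add_mul_emod_self_left, Int.add_mul_emod_self_left] at h1)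
    (by
      intro ω ω' hω
      rw [hr _ _ hω, hU _ _ hω])
  have h2 : L Ω (fun ω => ((r ω + m * Z ω, U ω), U' ω)) = L Ω (fun ω => (Z ω, U' ω)) := by
    unfold L
    refine sum_congr rfl fun ω _ => ?_
    congr 1
    rw [fib_eq, fib_eq]
    congr 2
    ext ω'
    simp only [mem_filter, Prod.mk.injEq, and_congr_right_iff]
    intro _
    constructor
    · rintro ⟨⟨h1, h2⟩, h3⟩
      refine ⟨?_, h3⟩
      rw [hr _ _ h3] at h1
      exact mul_left_cancel₀ hm (by linarith)
    · rintro ⟨h1, h3⟩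
      exact ⟨⟨by rw [hr _ _ h3, h1], hU _ _ h3⟩, h3⟩
  rw [h2] at h
  exact h

/-- The sum over the levels, for one slope. -/
theorem levels (Ω : Finset α) (U : ℕ → α → β) (hU : ∀ i ω ω', U (i + 1) ω = U (i + 1) ω' → U i ω = U i ω')
    (m : ℕ → ℤ) (hm : ∀ i, m i ≠ 0) (r : ℕ → α → ℤ)
    (hr : ∀ i ω ω', U (i + 1) ω = U (i + 1) ω' → r i ω = r i ω') (n : ℕ) : ∀ i,
    L Ω (fun ω => (tail m (fun j => r j ω) n i, U i ω)) ≤
      L Ω (fun ω => U (i + n) ω) +
      ∑ j ∈ range n, (L Ω (fun ω => (r (i + j) ω % m (i + j), U (i + j) ω)) - L Ω (U (i + j + 1))) := by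
  classical
  induction n with
  | zero =>
    intro i
    simp only [tail, range_zero, sum_empty, add_zero]
    apply le_of_eq
    unfold L
    refine sum_congr rfl fun ω _ => ?_
    congr 1
    rw [fib_eq, fib_eq]
    congr 2
    ext ω'
    simp
  | succ n ih =>
    intro i
    have h1 := level Ω (U i) (U (i + 1)) (hU i) (m i) (hm i) (r i)
      (fun ω => tail m (fun j => r j ω) n (i + 1)) (hr i)
    have h2 := ih (i + 1)
    simp only [tail]
    rw [sum_range_succ']
    have e1 : i + 1 + n = i + (n + 1) := by omega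
    have e2 : ∀ j, i + 1 + j = i + (j + 1) := fun j => by omega
    rw [e1] at h2
    simp only [e2] at h2
    simp only [add_zero]
    linarith

/-- One level, the average over the slopes. -/
theorem level_avg (Ω : Finset α) (U U' : α → β) [DecidableEq β]
    (hU : ∀ ω ω', U' ω = U' ω' → U ω = U ω')
    (m : ℤ) (V : β → ℤ × ℤ) (T : Finset ℤ)
    (c : α → ℝ) (hc : ∀ ω ∈ Ω, 0 < c ω) (hcU : ∀ ω ω', U ω = U ω' → c ω = c ω')
    (hcB : ∀ ω' ∈ Ω, ∑ u ∈ (Ω.filter fun ω => U ω = U ω').image U',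
      ((T.filter fun t => m ∣ ((V u).1 - (V (U' ω')).1) + t * ((V u).2 - (V (U' ω')).2)).card : ℝ) ≤
        T.card * c ω') :
    ∑ t ∈ T, (L Ω (fun ω => (((V (U' ω)).1 + t * (V (U' ω)).2) % m, U ω)) - L Ω U') ≤
      T.card * ∑ ω ∈ Ω, Real.log (c ω) := by
  classical
  set ρ : ℤ → α → ℤ × β := fun t ω => (((V (U' ω)).1 + t * (V (U' ω)).2) % m, U ω) with hρ
  have h1 : ∀ t ∈ T, ∀ ω ∈ Ω, Real.log (fib Ω (ρ t) ω) - Real.log (fib Ω U' ω) ≤
      Real.log (c ω) + (fib Ω (ρ t) ω * (fib Ω U' ω)⁻¹ * (c ω)⁻¹ - 1) := by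
    intro t _ ω hω
    have p1 := fib_pos (ρ t) hω
    have p2 := fib_pos U' hω
    have p3 := hc ω hω
    have h2 := Real.log_le_sub_one_of_pos (x := fib Ω (ρ t) ω * (fib Ω U' ω)⁻¹ * (c ω)⁻¹)
      (by positivity)
    rw [Real.log_mul (by positivity) (by positivity), Real.log_mul (by positivity) (by positivity),
      Real.log_inv, Real.log_inv] at h2
    linarith
  have h2 : ∑ t ∈ T, (L Ω (ρ t) - L Ω U') ≤ ∑ t ∈ T, ∑ ω ∈ Ω,
      (Real.log (c ω) + (fib Ω (ρ t) ω * (fib Ω U' ω)⁻¹ * (c ω)⁻¹ - 1)) := by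
    refine sum_le_sum fun t ht => ?_
    unfold L
    rw [← sum_sub_distrib]
    exact sum_le_sum (h1 t ht)
  refine h2.trans ?_
  have key : ∑ t ∈ T, ∑ ω ∈ Ω, fib Ω (ρ t) ω * (fib Ω U' ω)⁻¹ * (c ω)⁻¹ ≤ T.card * Ω.card := by
    -- write the size of the fibre as a sum
    have e1 : ∀ t ∈ T, ∑ ω ∈ Ω, fib Ω (ρ t) ω * (fib Ω U' ω)⁻¹ * (c ω)⁻¹ =
        ∑ ω' ∈ Ω, (c ω')⁻¹ * ((Ω.filter fun ω => ρ t ω' = ρ t ω).image U').card := by
      intro t _
      have e2 : ∀ ω ∈ Ω, fib Ω (ρ t) ω * (fib Ω U' ω)⁻¹ * (c ω)⁻¹ =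
          ∑ ω' ∈ Ω, if ρ t ω' = ρ t ω then (c ω')⁻¹ * (fib Ω U' ω)⁻¹ else 0 := by
        intro ω _
        have e3 : fib Ω (ρ t) ω = ∑ ω' ∈ Ω, if ρ t ω' = ρ t ω then (1:ℝ) else 0 := by
          rw [fib_eq, sum_ite, sum_const_zero, add_zero, sum_const, nsmul_eq_mul, mul_one]
        rw [e3, mul_assoc, sum_mul]
        refine sum_congr rfl fun ω' _ => ?_
        by_cases c1 : ρ t ω' = ρ t ω
        · have : c ω' = c ω := hcU _ _ (Prod.ext_iff.1 c1).2
          rw [if_pos c1, if_pos c1, this]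
          ring
        · rw [if_neg c1, if_neg c1, zero_mul]
      rw [sum_congr rfl e2, sum_comm]
      refine sum_congr rfl fun ω' _ => ?_
      rw [← sum_filter, ← mul_sum, sum_inv Ω U' (fun ω => ρ t ω' = ρ t ω)]
      intro ω₁ ω₂ h12 hP
      rw [hP, hρ]
      simp only [Prod.mk.injEq]
      rw [h12, hU _ _ h12]
      exact ⟨rfl, rfl⟩
    rw [sum_congr rfl e1, sum_comm]
    have e4 : ∀ ω' ∈ Ω, ∑ t ∈ T, (c ω')⁻¹ *
        (((Ω.filter fun ω => ρ t ω' = ρ t ω).image U').card : ℝ) ≤ T.card := by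
      intro ω' hω'
      have p3 := hc ω' hω'
      rw [← mul_sum, inv_mul_le_iff₀ p3, mul_comm (c ω')]
      refine le_trans ?_ (hcB ω' hω')
      set Ch : Finset β := (Ω.filter fun ω => U ω = U ω').image U' with hCh
      have e5 : ∀ t ∈ T, (((Ω.filter fun ω => ρ t ω' = ρ t ω).image U').card : ℝ) ≤
          ∑ u ∈ Ch, if m ∣ ((V u).1 - (V (U' ω')).1) + t * ((V u).2 - (V (U' ω')).2) then
            (1:ℝ) else 0 := by
        intro t _
        rw [sum_ite, sum_const_zero, add_zero, sum_const, nsmul_eq_mul, mul_one]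
        norm_cast
        apply card_le_card
        intro u
        rw [mem_image, mem_filter, hCh, mem_image]
        rintro ⟨ω, hω, rfl⟩
        rw [mem_filter] at hω
        obtain ⟨hω1, h3⟩ := hω
        rw [hρ] at h3
        simp only [Prod.mk.injEq] at h3
        refine ⟨⟨ω, ?_, rfl⟩, ?_⟩
        · rw [mem_filter]
          exact ⟨hω1, h3.2.symm⟩
        · have h5 := Int.ModEq.dvd (n := m) h3.1
          rwa [show (V (U' ω)).1 + t * (V (U' ω)).2 - ((V (U' ω')).1 + t * (V (U' ω')).2) =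
            ((V (U' ω)).1 - (V (U' ω')).1) + t * ((V (U' ω)).2 - (V (U' ω')).2) by ring] at h5
      refine (sum_le_sum e5).trans ?_
      rw [sum_comm]
      apply le_of_eq
      refine sum_congr rfl fun u _ => ?_
      rw [sum_ite, sum_const_zero, add_zero, sum_const, nsmul_eq_mul, mul_one]
    refine (sum_le_sum e4).trans ?_
    rw [sum_const, nsmul_eq_mul]
    apply le_of_eq
    ring
  have e7 : ∑ t ∈ T, ∑ ω ∈ Ω, (Real.log (c ω) + (fib Ω (ρ t) ω * (fib Ω U' ω)⁻¹ * (c ω)⁻¹ - 1)) =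
      T.card * ∑ ω ∈ Ω, Real.log (c ω) +
      (∑ t ∈ T, ∑ ω ∈ Ω, fib Ω (ρ t) ω * (fib Ω U' ω)⁻¹ * (c ω)⁻¹ - T.card * Ω.card) := by
    simp only [sum_add_distrib, sum_sub_distrib, sum_const, nsmul_eq_mul, mul_one]
  rw [e7]
  linarith

/-- **Main inequality.** -/
theorem main [DecidableEq β] (Ω : Finset α) (hΩ : Ω.Nonempty) (J : ℕ) (U : ℕ → α → β)
    (hU : ∀ i ω ω', U (i + 1) ω = U (i + 1) ω' → U i ω = U i ω')
    (hU0 : ∀ ω ω', U 0 ω = U 0 ω') (hUJ : ∀ ω ∈ Ω, ∀ ω' ∈ Ω, U J ω = U J ω' → ω = ω')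
    (m : ℕ → ℤ) (hm : ∀ i, m i ≠ 0) (V : β → ℤ × ℤ)
    (T : Finset ℤ) (hT0 : T.Nonempty)
    (c : ℕ → α → ℝ) (hc : ∀ i < J, ∀ ω ∈ Ω, 0 < c i ω)
    (hcU : ∀ i ω ω', U i ω = U i ω' → c i ω = c i ω')
    (hcB : ∀ i < J, ∀ ω' ∈ Ω, ∑ u ∈ (Ω.filter fun ω => U i ω = U i ω').image (U (i + 1)),
      ((T.filter fun t => m i ∣ ((V u).1 - (V (U (i + 1) ω')).1) +
        t * ((V u).2 - (V (U (i + 1) ω')).2)).card : ℝ) ≤ T.card * c i ω') :
    ∃ t ∈ T, (Ω.card : ℝ) * Real.log Ω.card ≤ ∑ ω ∈ Ω, ∑ i ∈ range J, Real.log (c i ω) +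
      Ω.card * Real.log (Ω.image fun ω =>
        ∑ i ∈ range J, (∏ l ∈ range i, m l) *
          ((V (U (i + 1) ω)).1 + t * (V (U (i + 1) ω)).2)).card := by
  classical
  set Z : ℤ → α → ℤ := fun t ω =>
    ∑ i ∈ range J, (∏ l ∈ range i, m l) * ((V (U (i + 1) ω)).1 + t * (V (U (i + 1) ω)).2) with hZ
  have hTc : (0:ℝ) < T.card := by exact_mod_cast card_pos.2 hT0
  have h1 : ∀ t ∈ T, L Ω (Z t) ≤
      ∑ j ∈ range J, (L Ω (fun ω => (((V (U (j + 1) ω)).1 + t * (V (U (j + 1) ω)).2) % m j, U j ω)) -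
        L Ω (U (j + 1))) := by
    intro t _
    have h2 := levels Ω U hU m hm (fun i ω => (V (U (i + 1) ω)).1 + t * (V (U (i + 1) ω)).2) (by
      intro i ω ω' h
      simp only [h]) J 0
    simp only [zero_add] at h2
    have h3 : L Ω (fun ω => (tail m (fun j => (V (U (j + 1) ω)).1 + t * (V (U (j + 1) ω)).2) J 0,
        U 0 ω)) = L Ω (Z t) := by
      unfold L
      refine sum_congr rfl fun ω _ => ?_
      congr 1
      rw [fib_eq, fib_eq]
      congr 2
      ext ω'
      simp only [mem_filter, Prod.mk.injEq, hU0 ω' ω, and_true, tail_eq, hZ, zero_add]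
    have h4 : L Ω (fun ω => U J ω) = 0 := by
      unfold L
      apply sum_eq_zero
      intro ω hω
      rw [fib_eq]
      have : (Ω.filter fun ω' => U J ω' = U J ω) = {ω} := by
        ext ω'
        rw [mem_filter, mem_singleton]
        constructor
        · rintro ⟨h5, h6⟩
          exact hUJ _ h5 _ hω h6
        · rintro rfl
          exact ⟨hω, rfl⟩
      rw [this]
      simp
    rw [h3, h4, zero_add] at h2
    exact h2
  have h2 : ∑ t ∈ T, L Ω (Z t) ≤ T.card * ∑ ω ∈ Ω, ∑ i ∈ range J, Real.log (c i ω) := by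
    refine (sum_le_sum h1).trans ?_
    rw [sum_comm, sum_comm (s := Ω), mul_sum]
    refine sum_le_sum fun i hi => ?_
    rw [mem_range] at hi
    exact level_avg Ω (U i) (U (i + 1)) (hU i) (m i) V T (c i) (hc i hi) (hcU i) (hcB i hi)
  obtain ⟨t, htT, ht⟩ : ∃ t ∈ T, L Ω (Z t) ≤ ∑ ω ∈ Ω, ∑ i ∈ range J, Real.log (c i ω) := by
    by_contra hno
    push Not at hno
    have h3 := sum_lt_sum_of_nonempty hT0 hno
    rw [sum_const, nsmul_eq_mul] at h3
    linarith
  refine ⟨t, htT, ?_⟩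
  have h3 := log_card_le Ω hΩ (Z t)
  linarith

/-- The slopes `t < k` with `m ∣ a + t b`. -/
theorem count_slopes (k m : ℕ) (hm : m ≠ 0) (a b : ℤ) :
    (((range k).filter fun t : ℕ => (m : ℤ) ∣ a + t * b).card : ℝ) ≤
      1 + ∑ g ∈ m.divisors, if (g : ℤ) ∣ a ∧ (g : ℤ) ∣ b then (k : ℝ) * g / m else 0 := by
  classical
  have hnn : ∀ g ∈ m.divisors, (0:ℝ) ≤ if (g : ℤ) ∣ a ∧ (g : ℤ) ∣ b then (k : ℝ) * g / m else 0 := by
    intro g _
    split_ifs <;> positivity
  by_cases hem : ((range k).filter fun t : ℕ => (m : ℤ) ∣ a + t * b) = ∅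
  · rw [hem, card_empty, Nat.cast_zero]
    have := sum_nonneg hnn
    linarith
  obtain ⟨t₀, ht₀⟩ := nonempty_iff_ne_empty.2 hem
  rw [mem_filter] at ht₀
  set g : ℕ := Int.gcd b m with hg
  have hgm : g ∣ m := by
    have := Int.gcd_dvd_right b (m : ℤ)
    exact_mod_cast this
  have hgb : (g : ℤ) ∣ b := Int.gcd_dvd_left b (m : ℤ)
  have hga : (g : ℤ) ∣ a := by
    have h1 : (g : ℤ) ∣ a + t₀ * b := (Int.natCast_dvd_natCast.2 hgm).trans ht₀.2
    exact (Int.dvd_add_left (hgb.mul_left _)).1 h1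
  have hg0 : 0 < g := Nat.pos_of_dvd_of_pos hgm (Nat.pos_of_ne_zero hm)
  obtain ⟨q, hq⟩ := hgm
  have hq0 : 0 < q := by
    rcases Nat.eq_zero_or_pos q with h | h
    · rw [h, mul_zero] at hq
      exact absurd hq hm
    · exact h
  have hcard : ((range k).filter fun t : ℕ => (m : ℤ) ∣ a + t * b).card ≤ k / q + 1 := by
    calc ((range k).filter fun t : ℕ => (m : ℤ) ∣ a + t * b).card
        ≤ (range (k / q + 1)).card := by
          apply card_le_card_of_injOn (fun t => t / q)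
          · intro t ht
            rw [mem_coe, mem_filter, mem_range] at ht
            rw [mem_coe, mem_range]
            exact Nat.lt_succ_of_le (Nat.div_le_div_right ht.1.le)
          · intro t ht t' ht' htt
            rw [mem_coe, mem_filter] at ht ht'
            have h1 : (m : ℤ) ∣ ((t : ℤ) - t') * b := by
              have h2 := dvd_sub ht.2 ht'.2
              rwa [show a + (t : ℤ) * b - (a + t' * b) = ((t : ℤ) - t') * b by ring] at h2
            have h3 : (q : ℤ) ∣ (t : ℤ) - t' := by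
              have h4 : IsCoprime (b / g) (q : ℤ) := by
                have h5 : q = m / g := by rw [hq, Nat.mul_div_cancel_left _ hg0]
                rw [h5]
                push_cast
                rw [hg, Int.isCoprime_iff_gcd_eq_one]
                exact Int.gcd_ediv_gcd_ediv_gcd (hg ▸ hg0)
              obtain ⟨b', hb'⟩ := hgb
              have h6 : b / g = b' := by
                rw [hb']
                exact Int.mul_ediv_cancel_left _ (by exact_mod_cast hg0.ne')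
              rw [h6] at h4
              have h7 : (g : ℤ) * q ∣ g * (((t : ℤ) - t') * b') := by
                have h8 : (g : ℤ) * (((t : ℤ) - t') * b') = ((t : ℤ) - t') * b := by
                  rw [hb']; ring
                rw [h8]
                have h9 : (m : ℤ) = g * q := by rw [hq]; push_cast; rfl
                rw [← h9]
                exact h1
              have h10 := (mul_dvd_mul_iff_left (by exact_mod_cast hg0.ne' : (g : ℤ) ≠ 0)).1 h7
              exact h4.symm.dvd_of_dvd_mul_right h10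
            have h4 : t % q = t' % q := by
              have h5 : (t' : ℤ) ≡ t [ZMOD q] := (Int.modEq_iff_dvd).2 h3
              exact (Int.natCast_modEq_iff.1 h5).symm
            simp only at htt
            calc t = q * (t / q) + t % q := (Nat.div_add_mod t q).symm
              _ = q * (t' / q) + t' % q := by rw [htt, h4]
              _ = t' := Nat.div_add_mod t' q
      _ = k / q + 1 := card_range _
  have h1 : (((range k).filter fun t : ℕ => (m : ℤ) ∣ a + t * b).card : ℝ) ≤ (k : ℝ) * g / m + 1 := by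
    have h2 : (((range k).filter fun t : ℕ => (m : ℤ) ∣ a + t * b).card : ℝ) ≤ ((k / q : ℕ) : ℝ) + 1 := by
      exact_mod_cast hcard
    have h3 : ((k / q : ℕ) : ℝ) ≤ (k : ℝ) / q := Nat.cast_div_le
    have h4 : (k : ℝ) / q = (k : ℝ) * g / m := by
      have h5 : (m : ℝ) = g * q := by rw [hq]; push_cast; rfl
      have h6 : (g : ℝ) ≠ 0 := by exact_mod_cast hg0.ne'
      have h7 : (q : ℝ) ≠ 0 := by exact_mod_cast hq0.ne'
      rw [h5]
      field_simp
    linarith
  have h2 : (k : ℝ) * g / m ≤ ∑ g ∈ m.divisors, if (g : ℤ) ∣ a ∧ (g : ℤ) ∣ b then (k : ℝ) * g / m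
      else 0 := by
    have h3 := single_le_sum hnn (Nat.mem_divisors.2 ⟨⟨q, hq⟩, hm⟩)
    rwa [if_pos ⟨hga, hgb⟩] at h3
  linarith

end Pool.Agent.N269.PF
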